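import Pool.Agent.Y576.BL.Order
import Pool.Agent.H458R3.LotsB

/-!
# A compact linearly ordered space without the Blumberg property
-/

set_option autoImplicit false
set_option linter.unusedSectionVars false

namespace Pool.Agent.Y576.BL

open Set Pool.Agent.H458R3.Lots

variable {W : Type} [LinearOrder W] [WellFoundedLT W]

/-- nodes -/
structure Node (A : Set W) where
  /-- point -/
  x : K A
  /-- last element of the node -/
  b : W
  /-- it is an element -/
  hb : mem x b

variable {A : Set W}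

/-- the cone of a node -/
def Node.cone (p : Node A) : Set (K A) := BL.cone p.x p.b

/-- `U` is decided by `p` -/
def Decides (p : Node A) (U : Set (K A)) : Prop := p.cone ⊆ U ∨ Disjoint p.cone U

lemma exists_ext [Nonempty W] (hA : ∀ a : W, ∃ c ∈ A, a < c) (p : Node A) {U : Set (K A)}
    (hU : IsOpen U) (a : W) :
    ∃ q : Node A, a < q.b ∧ p.b < q.b ∧ q.cone ⊆ p.cone ∧ Decides q U := by
  obtain ⟨u, v, w, h1, h2, h3⟩ := exists_Ioo_subset_cone hA p.hb
  have key : ∃ (x : K A) (b : W), mem x b ∧ cone x b ⊆ Ioo u v ∧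
      (cone x b ⊆ U ∨ Disjoint (cone x b) U) := by
    by_cases hne : (Ioo u v ∩ U).Nonempty
    · obtain ⟨x, b, hb, h⟩ := exists_cone_subset hA (isOpen_Ioo.inter hU) hne
      exact ⟨x, b, hb, h.trans inter_subset_left, Or.inl (h.trans inter_subset_right)⟩
    · obtain ⟨x, b, hb, h⟩ := exists_cone_subset hA (isOpen_Ioo (a := u) (b := v)) ⟨w, h1, h2⟩
      refine ⟨x, b, hb, h, Or.inr ?_⟩
      rw [Set.disjoint_left]
      intro z hz hz'
      exact hne ⟨z, h hz, hz'⟩
  obtain ⟨x, b, hb, h4, h5⟩ := key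
  obtain ⟨c, hc, hlt⟩ := hA (max (max a b) p.b)
  have h6 : b < c := ((le_max_right _ _).trans (le_max_left _ _)).trans_lt hlt
  have h7 : a < c := ((le_max_left _ _).trans (le_max_left _ _)).trans_lt hlt
  have h8 : p.b < c := (le_max_right _ _).trans_lt hlt
  have h9 : cone (ext x b c hb h6 hc) c ⊆ cone x b := cone_subset (ext_mem_cone hb h6 hc) h6.le
  refine ⟨⟨ext x b c hb h6 hc, c, by rw [mem_ext]; exact Or.inr rfl⟩, h7, h8,
    h9.trans (h4.trans h3), ?_⟩
  rcases h5 with h5 | h5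
  · exact Or.inl (h9.trans h5)
  · exact Or.inr (h5.mono_left h9)

/-- distributivity: countably many open sets are decided by one cone -/
theorem distrib [Nonempty W] (hb : ∀ C : Set W, C.Countable → ∃ b, ∀ c ∈ C, c < b)
    (h1 : ∀ w : W, (Iio w).Countable) (hA : Stat A) (O : ℕ → Set (K A)) (hO : ∀ n, IsOpen (O n))
    (p₀ : Node A) : ∃ p : Node A, p.cone ⊆ p₀.cone ∧ ∀ n, Decides p (O n) := by
  classical
  have hAu : ∀ a : W, ∃ c ∈ A, a < c := fun a => by
    obtain ⟨c, hc, hac, -⟩ := hA id a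
    exact ⟨c, hc, hac⟩
  choose E hE1 hE2 hE3 hE4 using fun (p : Node A) (q : ℕ × W) => exists_ext hAu p (hO q.1) q.2
  -- nodes generated from `p₀`
  let R : List (ℕ × W) → Node A := fun l => l.foldr (fun q p => E p q) p₀
  have hg : ∀ a : W, ∃ c : W, ∀ l : List (ℕ × W), (∀ q ∈ l, q.2 ≤ a) → (R l).b < c := by
    intro a
    have hcount : {l : List (ℕ × W) | ∀ q ∈ l, q.2 ≤ a}.Countable := by
      have h2 : ({q : ℕ × W | q.2 ≤ a}).Countable := by
        have h3 : (Iic a).Countable := by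
          rw [← Iio_insert]
          exact (h1 a).insert _
        have h4 : {q : ℕ × W | q.2 ≤ a} = (univ : Set ℕ) ×ˢ Iic a := by
          ext q; simp
        rw [h4]
        exact countable_univ.prod h3
      have : Countable {q : ℕ × W // q.2 ≤ a} := h2
      refine (countable_range fun l : List {q : ℕ × W // q.2 ≤ a} =>
        l.map Subtype.val).mono fun l hl => ?_
      refine ⟨l.attach.map fun q => ⟨q.1, hl q.1 q.2⟩, ?_⟩
      show ((l.attach.map _).map _) = l
      rw [List.map_map]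
      exact l.attach_map_subtype_val
    obtain ⟨c, hc⟩ := hb ((fun l => (R l).b) '' {l | ∀ q ∈ l, q.2 ≤ a}) (hcount.image _)
    exact ⟨c, fun l hl => hc _ ⟨l, hl, rfl⟩⟩
  choose g hg using hg
  obtain ⟨d, hdA, hpd, hd⟩ := hA g p₀.b
  -- enumerate the predecessors of `d`
  have hne : (Iio d).Nonempty := ⟨p₀.b, hpd⟩
  obtain ⟨e, he⟩ := (h1 d).exists_eq_range hne
  have he' : ∀ n, e n < d := fun n => by
    have : e n ∈ Iio d := by rw [he]; exact ⟨n, rfl⟩
    exact this
  let s : ℕ → List (ℕ × W) := fun n => ((List.range n).reverse).map fun i => (i, e i)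
  have hs : ∀ n, s (n + 1) = (n, e n) :: s n := by
    intro n
    simp [s, List.range_succ]
  let p : ℕ → Node A := fun n => R (s n)
  have hp : ∀ n, p (n + 1) = E (p n) (n, e n) := by
    intro n
    show R (s (n + 1)) = _
    rw [hs]
    rfl
  have hp0 : p 0 = p₀ := rfl
  have hlt : ∀ n, (p n).b < d := by
    intro n
    have hmem : ∀ m, ∃ a < d, ∀ q ∈ s m, q.2 ≤ a := by
      intro m
      induction m with
      | zero => exact ⟨p₀.b, hpd, fun q hq => by simp [s] at hq⟩
      | succ m ih =>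
        obtain ⟨a, ha, h⟩ := ih
        refine ⟨max a (e m), max_lt ha (he' m), fun q hq => ?_⟩
        rw [hs] at hq
        rcases List.mem_cons.1 hq with rfl | hq
        · exact le_max_right _ _
        · exact (h q hq).trans (le_max_left _ _)
    obtain ⟨a, ha, h⟩ := hmem n
    exact (hg a (s n) h).trans (hd a ha)
  have hstep : ∀ n, (p n).b < (p (n + 1)).b ∧ (p (n + 1)).cone ⊆ (p n).cone ∧
      e n < (p (n + 1)).b ∧ Decides (p (n + 1)) (O n) := by
    intro n
    rw [hp]
    exact ⟨hE2 (p n) (n, e n), hE3 (p n) (n, e n), hE1 (p n) (n, e n), hE4 (p n) (n, e n)⟩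
  have hanti : ∀ m n, m ≤ n → (p n).cone ⊆ (p m).cone := by
    intro m n hmn
    induction n, hmn using Nat.le_induction with
    | base => exact subset_rfl
    | succ n _ ih => exact (hstep n).2.1.trans ih
  have hmono : ∀ m n, m ≤ n → (p m).b ≤ (p n).b := by
    intro m n hmn
    induction n, hmn using Nat.le_induction with
    | base => exact le_rfl
    | succ n _ ih => exact ih.trans (hstep n).1.le
  have hagree : ∀ m n, m ≤ n → ∀ a ≤ (p m).b, (mem (p n).x a ↔ mem (p m).x a) :=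
    fun m n hmn => hanti m n hmn (self_mem_cone _ _)
  have hcof : ∀ a < d, ∃ n, a < (p n).b := by
    intro a ha
    have : a ∈ Iio d := ha
    rw [he] at this
    obtain ⟨n, rfl⟩ := this
    exact ⟨n + 1, (hstep n).2.2.1⟩
  -- the limit
  let z : W → Prop := fun a => (∃ n, a ≤ (p n).b ∧ mem (p n).x a) ∨ a = d
  have hz : ∀ n, ∀ a ≤ (p n).b, (z a ↔ mem (p n).x a) := by
    intro n a ha
    constructor
    · rintro (⟨m, h2, h3⟩ | rfl)
      · rcases le_total m n with h | h
        · exact (hagree m n h a h2).2 h3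
        · exact (hagree n m h a ha).1 h3
      · exact absurd (hlt n) (not_lt.2 ha)
    · intro h
      exact Or.inl ⟨n, ha, h⟩
  have hgood : Good A z := by
    refine ⟨?_, ?_⟩
    · rintro a (⟨n, -, h⟩ | rfl)
      · exact (p n).x.2.1 a h
      · exact hdA
    · intro d' e' he2 hde hd' hlim
      have hed : e' ≤ d := by
        rcases he2 with ⟨n, h2, -⟩ | rfl
        · exact h2.trans (hlt n).le
        · exact le_rfl
      obtain ⟨n, hn⟩ := hcof d' (hde.trans_le hed)
      rw [hz n d' hn.le]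
      refine (p n).x.2.2 d' (p n).b (p n).hb hn hd' fun b hbd => ?_
      obtain ⟨c, h2, h3, h4⟩ := hlim b hbd
      exact ⟨c, h2, h3, (hz n c (h3.trans hn).le).1 h4⟩
  let q : Node A := ⟨mk z hgood, d, Or.inr rfl⟩
  have hq : ∀ n, q.cone ⊆ (p n).cone := by
    intro n
    refine cone_subset (fun a ha => ?_) (hlt n).le
    exact hz n a ha
  refine ⟨q, hq 0, fun n => ?_⟩
  rcases (hstep n).2.2.2 with h | h
  · exact Or.inl ((hq _).trans h)
  · exact Or.inr (h.mono_left (hq _))

/-- the points below `b` form a nowhere dense set -/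
lemma exists_open_avoid [Nonempty W] (hA : ∀ a : W, ∃ c ∈ A, a < c) (p : Node A) (b : W) :
    ∃ V : Set (K A), IsOpen V ∧ V.Nonempty ∧ V ⊆ p.cone ∧ ∀ x ∈ V, ∃ a, mem x a ∧ b < a := by
  obtain ⟨q, h1, -, h2, -⟩ := exists_ext hA p isOpen_univ b
  obtain ⟨u, v, w, h3, h4, h5⟩ := exists_Ioo_subset_cone hA q.hb
  refine ⟨Ioo u v, isOpen_Ioo, ⟨w, h3, h4⟩, h5.trans h2, fun x hx => ⟨q.b, ?_, h1⟩⟩
  exact (h5 hx q.b le_rfl).2 q.hb

/-- every point is bounded, if the complement of `A` is stationary -/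
lemma exists_bound [Nonempty W] (hAc : Stat Aᶜ) (x : K A) : ∃ b, ∀ a, mem x a → a ≤ b := by
  classical
  by_contra hcon
  push Not at hcon
  choose g hg1 hg2 using hcon
  obtain ⟨a0⟩ := (inferInstance : Nonempty W)
  obtain ⟨d, hd, h1, h2⟩ := hAc g a0
  refine hd (x.2.1 d (x.2.2 d (g d) (hg1 d) (hg2 d) ⟨a0, h1⟩ fun b hb => ?_))
  exact ⟨g b, hg2 b, h2 b hb, hg1 b⟩

/-- the space fails the Blumberg property -/
theorem not_blumberg [Nonempty W] (hb : ∀ C : Set W, C.Countable → ∃ b, ∀ c ∈ C, c < b)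
    (h1 : ∀ w : W, (Iio w).Countable) (hA : Stat A) (hAc : Stat Aᶜ)
    (g : W → ℝ) (hg : Function.Injective g) :
    ∃ f : K A → ℝ, ∀ D : Set (K A), Dense D → ¬ ContinuousOn f D := by
  classical
  have hAu : ∀ a : W, ∃ c ∈ A, a < c := fun a => by
    obtain ⟨c, hc, hac, -⟩ := hA id a
    exact ⟨c, hc, hac⟩
  choose r hr using fun x : K A => exists_bound hAc x
  refine ⟨fun x => g (r x), fun D hD hcont => ?_⟩
  -- the countable family of open sets
  have hC : ∀ q : ℚ, ∃ C : Set (K A), IsOpen C ∧ ∀ x ∈ D, (x ∈ C ↔ g (r x) < q) := by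
    intro q
    obtain ⟨C, hC1, hC2⟩ := (continuousOn_iff'.1 hcont) (Iio (q : ℝ)) isOpen_Iio
    refine ⟨C, hC1, fun x hx => ?_⟩
    have := Set.ext_iff.1 hC2 x
    simp only [mem_inter_iff, mem_preimage, mem_Iio, hx, and_true] at this
    exact this.symm
  choose C hC1 hC2 using hC
  obtain ⟨e, he⟩ := exists_surjective_nat ℚ
  obtain ⟨a0⟩ := (inferInstance : Nonempty W)
  obtain ⟨c0, hc0, -⟩ := hAu a0
  obtain ⟨p, -, hp⟩ := distrib hb h1 hA (fun n => C (e n)) (fun n => hC1 _)
    ⟨sing c0 hc0, c0, rfl⟩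
  have hp' : ∀ q, Decides p (C q) := by
    intro q
    obtain ⟨n, rfl⟩ := he q
    exact hp n
  obtain ⟨u, v, w, h2, h3, h4⟩ := exists_Ioo_subset_cone hAu p.hb
  obtain ⟨x, hx1, hx2⟩ := hD.inter_open_nonempty _ isOpen_Ioo ⟨w, h2, h3⟩
  obtain ⟨V, hV1, hV2, hV3, hV4⟩ := exists_open_avoid hAu p (r x)
  obtain ⟨y, hy1, hy2⟩ := hD.inter_open_nonempty V hV1 hV2
  have hxp : x ∈ p.cone := h4 hx1
  have hyp : y ∈ p.cone := hV3 hy1
  have key : ∀ x y : K A, x ∈ D → y ∈ D → x ∈ p.cone → y ∈ p.cone →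
      ¬ g (r x) < g (r y) := by
    intro x y hxD hyD hx hy hlt
    obtain ⟨q, hq1, hq2⟩ := exists_rat_btwn hlt
    rcases hp' q with h | h
    · exact absurd ((hC2 q y hyD).1 (h hy)) (not_lt.2 hq2.le)
    · exact Set.disjoint_left.1 h hx ((hC2 q x hxD).2 hq1)
  have heq : g (r x) = g (r y) :=
    le_antisymm (not_lt.1 (key y x hy2 hx2 hyp hxp)) (not_lt.1 (key x y hx2 hy2 hxp hyp))
  have hrr : r x = r y := hg heq
  obtain ⟨a, ha1, ha2⟩ := hV4 y hy1
  exact absurd (hr y a ha1) (not_le.2 (hrr ▸ ha2))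

/-! ### The first uncountable ordinal -/

open Cardinal in
/-- the first uncountable ordinal -/
abbrev Om : Type := (ℵ₁ : Cardinal.{0}).ord.ToType

lemma mk_Om : Cardinal.mk Om = Cardinal.aleph 1 := Cardinal.mk_ord_toType _

lemma countable_Iio (a : Om) : (Iio a).Countable := by
  have h : Cardinal.mk (Iio a) < Cardinal.mk Om :=
    Cardinal.mk_Iio_lt (α := (Cardinal.aleph 1).ord.ToType) a (by simp)
  rw [mk_Om] at h
  rwa [← Cardinal.le_aleph0_iff_set_countable, ← Order.lt_succ_iff, Cardinal.succ_aleph0]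

instance : Uncountable Om := by
  rw [← not_countable_iff, ← Cardinal.mk_le_aleph0_iff, mk_Om, not_le]
  exact Cardinal.aleph0_lt_aleph_one

/-- countable sets are bounded -/
lemma bdd_of_countable {A : Set Om} (hA : A.Countable) : ∃ b, ∀ a ∈ A, a < b := by
  by_contra hcon
  push Not at hcon
  have : (univ : Set Om) ⊆ ⋃ a ∈ A, Iic a := by
    intro x _
    obtain ⟨a, ha, hx⟩ := hcon x
    exact mem_biUnion ha hx
  refine not_countable_univ ((hA.biUnion fun a _ => ?_).mono this)
  rw [← Iio_insert]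
  exact (countable_Iio a).insert _

instance : Nonempty Om := by
  by_contra h
  rw [not_nonempty_iff] at h
  exact not_countable (α := Om) inferInstance

theorem main : ∃ A : Set Om, CompactSpace (K A) ∧
    ∃ f : K A → ℝ, ∀ D : Set (K A), Dense D → ¬ ContinuousOn f D := by
  obtain ⟨T, hT1, hT2⟩ := exists_stat (W := Om) (fun C hC => bdd_of_countable hC)
    countable_Iio mk_Om
  obtain ⟨i, j, hij⟩ : ∃ i j : Om, i ≠ j := by
    obtain ⟨i⟩ := (inferInstance : Nonempty Om)
    obtain ⟨j, hj⟩ := bdd_of_countable (countable_singleton i)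
    exact ⟨i, j, (hj i rfl).ne⟩
  have hc : Stat (T i)ᶜ := by
    intro g a
    obtain ⟨c, h1, h2⟩ := hT1 j g a
    exact ⟨c, fun h => Set.disjoint_left.1 (hT2 i j hij) h h1, h2⟩
  have hinj : ∃ g : Om → ℝ, Function.Injective g := by
    have : Cardinal.mk Om ≤ Cardinal.mk ℝ := by
      rw [mk_Om, Cardinal.mk_real]
      exact Cardinal.aleph_one_le_continuum
    obtain ⟨g⟩ := this
    exact ⟨g, g.injective⟩
  obtain ⟨g, hg⟩ := hinj
  exact ⟨T i, inferInstance, not_blumberg (fun C hC => bdd_of_countable hC) countable_Iio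
    (hT1 i) hc g hg⟩

end Pool.Agent.Y576.BL
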