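import Mathlib

/-!
# A compact linearly ordered space of subsets of a well-order

`W` is a well-order and `A` a subset of `W`. The points are the subsets of `A` which are closed
below their elements, ordered lexicographically.
-/

set_option autoImplicit false
set_option linter.unusedSectionVars false

namespace Pool.Agent.Y576.BL

open Set

variable {W : Type} [LinearOrder W] [WellFoundedLT W]

/-- `x` (a subset of `W`, as a predicate) is contained in `A` and contains each of its limit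
points below one of its elements. -/
def Good (A : Set W) (x : W → Prop) : Prop :=
  (∀ a, x a → a ∈ A) ∧
    ∀ d e, x e → d < e → (∃ b, b < d) → (∀ b < d, ∃ c, b < c ∧ c < d ∧ x c) → x d

/-- the space -/
def K (A : Set W) : Type := {x : Lex (W → Prop) // Good A (ofLex x)}

noncomputable instance (A : Set W) : LinearOrder (K A) :=
  inferInstanceAs (LinearOrder {x : Lex (W → Prop) // Good A (ofLex x)})

variable {A : Set W}

/-- membership -/
def mem (x : K A) (a : W) : Prop := ofLex x.1 a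

/-- constructor -/
def mk (x : W → Prop) (h : Good A x) : K A := ⟨toLex x, h⟩

@[simp] lemma mem_mk (x : W → Prop) (h : Good A x) (a : W) : mem (mk x h) a ↔ x a := Iff.rfl

lemma K.ext' {x y : K A} (h : ∀ a, mem x a ↔ mem y a) : x = y := by
  apply Subtype.ext
  have : ofLex x.1 = ofLex y.1 := funext fun a => propext (h a)
  exact this

lemma lt_iff {x y : K A} : x < y ↔ ∃ i, (∀ j < i, (mem x j ↔ mem y j)) ∧ ¬ mem x i ∧ mem y i := by
  change x.1 < y.1 ↔ _
  change (∃ i, (∀ j, j < i → ofLex x.1 j = ofLex y.1 j) ∧ ofLex x.1 i < ofLex y.1 i) ↔ _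
  constructor
  · rintro ⟨i, h1, h2⟩
    refine ⟨i, fun j hj => by unfold mem; rw [h1 j hj], ?_⟩
    rw [lt_iff_le_not_ge] at h2
    have h3 : ofLex x.1 i → ofLex y.1 i := h2.1
    have h4 : ¬ (ofLex y.1 i → ofLex x.1 i) := h2.2
    unfold mem
    tauto
  · rintro ⟨i, h1, h2, h3⟩
    refine ⟨i, fun j hj => propext (h1 j hj), ?_⟩
    rw [lt_iff_le_not_ge]
    exact ⟨fun h => (h2 h).elim, fun h => h2 (h h3)⟩

lemma good_of_local {x : W → Prop}
    (h : ∀ a, x a → ∃ y : K A, mem y a ∧ ∀ b ≤ a, (mem y b ↔ x b)) : Good A x := by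
  constructor
  · intro a ha
    obtain ⟨y, h1, h2⟩ := h a ha
    exact y.2.1 a h1
  · intro d e he hde hd hlim
    obtain ⟨y, h1, h2⟩ := h e he
    have := y.2.2 d e h1 hde hd (fun b hb => by
      obtain ⟨c, h3, h4, h5⟩ := hlim b hb
      exact ⟨c, h3, h4, (h2 c (h4.trans hde).le).2 h5⟩)
    exact (h2 d hde.le).1 this

/-- every set of points has a least upper bound -/
lemma exists_lub (S : Set (K A)) : ∃ z, IsLUB S z := by
  classical
  have wf : WellFounded ((· < ·) : W → W → Prop) := wellFounded_lt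
  let F : (a : W) → ((b : W) → b < a → Prop) → Prop :=
    fun a ih => ∃ x ∈ S, (∀ (b : W) (h : b < a), mem x b ↔ ih b h) ∧ mem x a
  let z : W → Prop := wf.fix F
  have hz : ∀ a, z a ↔ ∃ x ∈ S, (∀ b < a, (mem x b ↔ z b)) ∧ mem x a := by
    intro a
    have := wf.fix_eq F a
    show wf.fix F a ↔ _
    rw [this]
  have hg : Good A z := by
    apply good_of_local
    intro a ha
    obtain ⟨x, -, h2, h3⟩ := (hz a).1 ha
    refine ⟨x, h3, fun b hb => ?_⟩
    rcases hb.lt_or_eq with h | rfl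
    · exact h2 b h
    · exact ⟨fun _ => ha, fun _ => h3⟩
  refine ⟨mk z hg, ?_, ?_⟩
  · intro x hx
    by_contra hlt
    rw [not_le, lt_iff] at hlt
    obtain ⟨i, h1, h2, h3⟩ := hlt
    exact h2 ((hz i).2 ⟨x, hx, fun b hb => (h1 b hb).symm, h3⟩)
  · intro y hy
    by_contra hlt
    rw [not_le, lt_iff] at hlt
    obtain ⟨i, h1, h2, h3⟩ := hlt
    obtain ⟨x, hx, h4, h5⟩ := (hz i).1 h3
    have : y < x := lt_iff.2 ⟨i, fun j hj => (h1 j hj).trans (h4 j hj).symm, h2, h5⟩
    exact absurd (hy hx) (not_le.2 this)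

/-- the complete lattice structure -/
@[reducible] noncomputable def cl (A : Set W) : CompleteLinearOrder (K A) :=
  let _ : SupSet (K A) := ⟨fun S => (exists_lub S).choose⟩
  let cL0 : CompleteLattice (K A) := completeLatticeOfSup (K A) fun S => (exists_lub S).choose_spec
  let cL : CompleteLattice (K A) := { LinearOrder.toLattice (α := K A), cL0 with }
  { (inferInstance : LinearOrder (K A)), cL, LinearOrder.toBiheytingAlgebra (K A) with }

noncomputable instance (A : Set W) : TopologicalSpace (K A) := Preorder.topology (K A)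

instance (A : Set W) : OrderTopology (K A) := ⟨rfl⟩

instance (A : Set W) : CompactSpace (K A) :=
  letI := cl A
  haveI : @OrderTopology (K A) _ (cl A).toPartialOrder.toPreorder := ⟨rfl⟩
  @compactSpace_of_completeLinearOrder (K A) (cl A) _ this

/-! ### Cones -/

/-- the points which agree with `x` up to `b` -/
def cone (x : K A) (b : W) : Set (K A) := {y | ∀ a ≤ b, (mem y a ↔ mem x a)}

lemma self_mem_cone (x : K A) (b : W) : x ∈ cone x b := fun _ _ => Iff.rfl

lemma cone_subset {x y : K A} {b c : W} (h : y ∈ cone x b) (hbc : b ≤ c) :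
    cone y c ⊆ cone x b := fun _ hz a ha => (hz a (ha.trans hbc)).trans (h a ha)

lemma cone_anti {x : K A} {b c : W} (hbc : b ≤ c) : cone x c ⊆ cone x b :=
  cone_subset (self_mem_cone x b) hbc

lemma cone_eq {x y : K A} {b : W} (h : y ∈ cone x b) : cone y b = cone x b := by
  ext z
  exact ⟨fun hz a ha => (hz a ha).trans (h a ha), fun hz a ha => (hz a ha).trans (h a ha).symm⟩

lemma cone_convex {x u v w : K A} {b : W} (hu : u ∈ cone x b) (hv : v ∈ cone x b)
    (h1 : u ≤ w) (h2 : w ≤ v) : w ∈ cone x b := by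
  rcases h1.lt_or_eq with h1 | rfl
  swap
  · exact hu
  rcases h2.lt_or_eq with h2 | rfl
  swap
  · exact hv
  obtain ⟨i, hi1, hi2, hi3⟩ := lt_iff.1 h1
  obtain ⟨j, hj1, hj2, hj3⟩ := lt_iff.1 h2
  have key : b < i := by
    by_contra hib
    rw [not_lt] at hib
    have h3 : ¬ mem v i := fun h => hi2 ((hu i hib).2 ((hv i hib).1 h))
    rcases lt_trichotomy i j with h | rfl | h
    · exact h3 ((hj1 i h).1 hi3)
    · exact hj2 hi3
    · have h4 : mem u j := (hu j (h.le.trans hib)).2 ((hv j (h.le.trans hib)).1 hj3)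
      exact hj2 ((hi1 j h).1 h4)
  intro a ha
  exact (hi1 a (ha.trans_lt key)).symm.trans (hu a ha)

/-- cut at `b` and then add a point `c ∈ A` -/
noncomputable def ext (x : K A) (b c : W) (hb : mem x b) (hbc : b < c) (hc : c ∈ A) : K A :=
  mk (fun a => (mem x a ∧ a ≤ b) ∨ a = c) (by
    refine ⟨?_, ?_⟩
    · rintro a (⟨h, -⟩ | rfl)
      · exact x.2.1 a h
      · exact hc
    · rintro d e he hde hd hlim
      have hdb : d ≤ b := by
        by_contra hlt
        rw [not_le] at hlt
        obtain ⟨a, h1, h2, h3⟩ := hlim b hlt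
        rcases h3 with ⟨-, h3⟩ | rfl
        · exact absurd h1 (not_lt.2 h3)
        · rcases he with ⟨-, he⟩ | rfl
          · exact absurd (hlt.trans hde) (not_lt.2 he)
          · exact lt_asymm h2 hde
      left
      refine ⟨?_, hdb⟩
      rcases hdb.lt_or_eq with h | rfl
      · refine x.2.2 d b hb h hd fun b' hb' => ?_
        obtain ⟨c', h1, h2, h3⟩ := hlim b' hb'
        refine ⟨c', h1, h2, ?_⟩
        rcases h3 with ⟨h3, -⟩ | rfl
        · exact h3
        · exact absurd (h2.trans_le hdb) (not_lt.2 hbc.le)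
      · exact hb)

lemma mem_ext {x : K A} {b c : W} (hb : mem x b) (hbc : b < c) (hc : c ∈ A) (a : W) :
    mem (ext x b c hb hbc hc) a ↔ (mem x a ∧ a ≤ b) ∨ a = c := Iff.rfl

lemma ext_mem_cone {x : K A} {b c : W} (hb : mem x b) (hbc : b < c) (hc : c ∈ A) :
    ext x b c hb hbc hc ∈ cone x b := by
  intro a ha
  rw [mem_ext]
  constructor
  · rintro (⟨h, -⟩ | rfl)
    · exact h
    · exact absurd hbc (not_lt.2 ha)
  · exact fun h => Or.inl ⟨h, ha⟩

/-- each cone contains a nonempty open interval -/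
lemma exists_Ioo_subset_cone (hA : ∀ a : W, ∃ c ∈ A, a < c) {x : K A} {b : W} (hb : mem x b) :
    ∃ u v w : K A, u < w ∧ w < v ∧ Ioo u v ⊆ cone x b := by
  obtain ⟨c, hc, hbc⟩ := hA b
  obtain ⟨d, hd, hcd⟩ := hA c
  obtain ⟨e, he, hde⟩ := hA d
  have hbd := hbc.trans hcd
  have hbe := hbd.trans hde
  refine ⟨ext x b e hb hbe he, ext x b c hb hbc hc, ext x b d hb hbd hd, ?_, ?_, ?_⟩
  · refine lt_iff.2 ⟨d, fun j hj => ?_, ?_, ?_⟩
    · rw [mem_ext, mem_ext]
      have h1 : j ≠ e := (hj.trans hde).ne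
      have h2 : j ≠ d := hj.ne
      simp [h1, h2]
    · rw [mem_ext]
      rintro (⟨-, h⟩ | h)
      · exact absurd hbd (not_lt.2 h)
      · exact hde.ne h
    · rw [mem_ext]; exact Or.inr rfl
  · refine lt_iff.2 ⟨c, fun j hj => ?_, ?_, ?_⟩
    · rw [mem_ext, mem_ext]
      have h1 : j ≠ c := hj.ne
      have h2 : j ≠ d := (hj.trans hcd).ne
      simp [h1, h2]
    · rw [mem_ext]
      rintro (⟨-, h⟩ | h)
      · exact absurd hbc (not_lt.2 h)
      · exact hcd.ne h
    · rw [mem_ext]; exact Or.inr rfl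
  · rintro _ ⟨h1, h2⟩
    exact cone_convex (ext_mem_cone hb hbe he) (ext_mem_cone hb hbc hc) h1.le h2.le

/-- the empty point -/
noncomputable def emp (A : Set W) : K A :=
  mk (fun _ => False) ⟨fun _ h => h.elim, fun _ _ h => h.elim⟩

/-- the singletons -/
noncomputable def sing (c : W) (hc : c ∈ A) : K A :=
  mk (fun a => a = c) ⟨by rintro a rfl; exact hc, by
    rintro d e rfl hde ⟨b, hb⟩ hlim
    obtain ⟨c', -, h1, rfl⟩ := hlim b hb
    exact absurd h1 (not_lt.2 hde.le)⟩

/-- each nonempty open set contains a cone -/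
lemma exists_cone_subset [Nonempty W] (hA : ∀ a : W, ∃ c ∈ A, a < c) {U : Set (K A)}
    (hU : IsOpen U)
    (hne : U.Nonempty) : ∃ (x : K A) (b : W), mem x b ∧ cone x b ⊆ U := by
  obtain ⟨z, hz⟩ := hne
  have hnh : U ∈ nhds z := hU.mem_nhds hz
  by_cases h0 : ∃ a, mem z a
  · by_cases hmax : ∃ m, mem z m ∧ ∀ a, mem z a → a ≤ m
    · obtain ⟨m, hm, hmax⟩ := hmax
      obtain ⟨c0, hc0, hmc0⟩ := hA m
      have hex : ∃ u, z < u := by
        refine ⟨ext z m c0 hm hmc0 hc0, lt_iff.2 ⟨c0, fun j hj => ?_, ?_, ?_⟩⟩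
        · rw [mem_ext]
          have : j ≠ c0 := hj.ne
          simp only [this, or_false]
          exact ⟨fun h => ⟨h, hmax j h⟩, fun h => h.1⟩
        · exact fun h => absurd hmc0 (not_lt.2 (hmax _ h))
        · rw [mem_ext]; exact Or.inr rfl
      obtain ⟨v, hzv, hv⟩ := exists_Ico_subset_of_mem_nhds hnh hex
      obtain ⟨i, hi1, hi2, hi3⟩ := lt_iff.1 hzv
      obtain ⟨c, hc, hmc⟩ := hA (max m i)
      have h1 : m < c := (le_max_left _ _).trans_lt hmc
      have h2 : i < c := (le_max_right _ _).trans_lt hmc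
      refine ⟨ext z m c hm h1 hc, c, by rw [mem_ext]; exact Or.inr rfl, fun w hw => hv ?_⟩
      have key : ∀ j < c, (mem w j ↔ mem z j) := by
        intro j hj
        rw [hw j hj.le, mem_ext]
        have : j ≠ c := hj.ne
        simp only [this, or_false]
        exact ⟨fun h => h.1, fun h => ⟨h, hmax j h⟩⟩
      refine ⟨(lt_iff.2 ⟨c, fun j hj => (key j hj).symm, fun h => absurd h1 (not_lt.2 (hmax _ h)),
        (hw c le_rfl).2 (by rw [mem_ext]; exact Or.inr rfl)⟩).le,
        lt_iff.2 ⟨i, fun j hj => (key j (hj.trans h2)).trans (hi1 j hj),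
          fun h => hi2 ((key i h2).1 h), hi3⟩⟩
    · push Not at hmax
      have hex : ∃ l, l < z := by
        have wf : WellFounded ((· < ·) : W → W → Prop) := wellFounded_lt
        refine ⟨emp A, lt_iff.2 ⟨wf.min {a | mem z a} h0, fun j hj => ?_, fun h => h.elim,
          wf.min_mem {a | mem z a} h0⟩⟩
        exact ⟨fun h => h.elim, fun h => absurd hj (wf.not_lt_min {a | mem z a} h)⟩
      obtain ⟨l, hlz, hl⟩ := exists_Ioc_subset_of_mem_nhds hnh hex
      obtain ⟨i, hi1, hi2, hi3⟩ := lt_iff.1 hlz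
      have hne : {a | mem z a ∧ i < a}.Nonempty := by
        obtain ⟨a, ha1, ha2⟩ := hmax i hi3
        exact ⟨a, ha1, ha2⟩
      obtain ⟨j, ⟨hj1, hj2⟩, hj3⟩ : ∃ j, (mem z j ∧ i < j) ∧ ∀ a < j, mem z a → a ≤ i := by
        have wf : WellFounded ((· < ·) : W → W → Prop) := wellFounded_lt
        refine ⟨wf.min _ hne, wf.min_mem _ hne, fun a ha hza => ?_⟩
        by_contra hlt
        rw [not_le] at hlt
        exact wf.not_lt_min {a | mem z a ∧ i < a} ⟨hza, hlt⟩ ha
      obtain ⟨c, hc, hjc⟩ := hA j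
      refine ⟨ext z i c hi3 (hj2.trans hjc) hc, c, by rw [mem_ext]; exact Or.inr rfl,
        fun w hw => hl ?_⟩
      have key : ∀ a < j, (mem w a ↔ mem z a) := by
        intro a ha
        rw [hw a (ha.trans hjc).le, mem_ext]
        have : a ≠ c := (ha.trans hjc).ne
        simp only [this, or_false]
        exact ⟨fun h => h.1, fun h => ⟨h, hj3 a ha h⟩⟩
      refine ⟨lt_iff.2 ⟨i, fun a ha => (hi1 a ha).trans (key a (ha.trans hj2)).symm, hi2,
        (key i hj2).2 hi3⟩, (lt_iff.2 ⟨j, key, fun h => ?_, hj1⟩).le⟩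
      have := (hw j hjc.le).1 h
      rw [mem_ext] at this
      rcases this with ⟨-, h⟩ | h
      · exact absurd hj2 (not_lt.2 h)
      · exact hjc.ne h
  · have h0' : ∀ a, ¬ mem z a := fun a ha => h0 ⟨a, ha⟩
    obtain ⟨a0⟩ := (inferInstance : Nonempty W)
    obtain ⟨c0, hc0, -⟩ := hA a0
    · have hex : ∃ u, z < u := by
        have wf : WellFounded ((· < ·) : W → W → Prop) := wellFounded_lt
        exact ⟨sing c0 hc0, lt_iff.2 ⟨c0, fun j hj => ⟨fun h => (h0' j h).elim,
          fun h => absurd hj (by rw [show j = c0 from h]; exact lt_irrefl _)⟩, h0' _, rfl⟩⟩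
      obtain ⟨v, hzv, hv⟩ := exists_Ico_subset_of_mem_nhds hnh hex
      obtain ⟨i, hi1, hi2, hi3⟩ := lt_iff.1 hzv
      obtain ⟨c, hc, hic⟩ := hA i
      refine ⟨sing c hc, c, rfl, fun w hw => hv ?_⟩
      have key : ∀ j < c, ¬ mem w j := by
        intro j hj h
        exact hj.ne ((hw j hj.le).1 h)
      refine ⟨(lt_iff.2 ⟨c, fun j hj => ⟨fun h => (h0' j h).elim, fun h => (key j hj h).elim⟩,
        h0' _, (hw c le_rfl).2 rfl⟩).le, lt_iff.2 ⟨i, fun j hj => ?_, key i hic, hi3⟩⟩
      exact ⟨fun h => (key j (hj.trans hic) h).elim, fun h => (h0' j ((hi1 j hj).2 h)).elim⟩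
end Pool.Agent.Y576.BL
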